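import Pool.Agent.Q267.W63.Val
import Pool.Agent.Q267.W63.Inert
import Pool.Agent.Q267.W63.Jac

/-!
# MP_d8ab80_nt

Congruences for the sums of `C(2k,k) C(4k,2k) / 63^k` and `C(2k,k) C(4k,2k)² / 63^k`.
-/

namespace Pool.Agent.Results.MP_d8ab80_nt.Full

open Finset

/-- `u ≡ v (mod p^n)`: `(u - v) / p^n` has a denominator prime to `p`. -/
def Cong (p n : ℕ) (u v : ℚ) : Prop := ¬ p ∣ ((u - v) / (p : ℚ) ^ n).den

/-- `a_k = C(2k,k) C(4k,2k)` -/
def a (k : ℕ) : ℚ := ((2 * k).choose k : ℚ) * ((4 * k).choose (2 * k) : ℚ)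

/-- `b_k = C(2k,k) C(4k,2k)²` -/
def b (k : ℕ) : ℚ := ((2 * k).choose k : ℚ) * ((4 * k).choose (2 * k) : ℚ) ^ 2

/-- `S(p)` -/
def S (p : ℕ) : ℚ := ∑ k ∈ range p, a k / 63 ^ k

/-- `T(p)` -/
def T (p : ℕ) : ℚ := ∑ k ∈ range p, ((k : ℚ) + 8) * a k / 63 ^ k

/-- `U(p)` -/
def U (p : ℕ) : ℚ := ∑ k ∈ range p, b k / 63 ^ k

open Pool.Agent.Q267 Pool.Agent.Q267.CDE Pool.Agent.Q267.Seven Q278.PI
  Pool.Agent.Q261.SC Pool.Agent.Q267.W64 Pool.Agent.Q267.W63

section

variable (p : ℕ) [hp : Fact p.Prime]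

theorem cong_two {r s : ℚ} (a b : O p) (ha : (a : ℚ) = r)
    (hb : (b : ℚ) = s) (h : res2 p a = res2 p b) : Cong p 2 r s := by
  subst ha hb
  obtain ⟨c, hc⟩ := res2_zero p (a - b) (by rw [map_sub, h, sub_self])
  have h1 := congrArg (Subtype.val) hc
  push_cast at h1
  have hp0 : (p : ℚ) ≠ 0 := by exact_mod_cast hp.out.ne_zero
  unfold Cong
  have e : ((a : ℚ) - (b : ℚ)) / (p : ℚ) ^ 2 = (c : ℚ) := by
    rw [h1]
    field_simp
  rw [e]
  exact c.2

theorem cong_one {r : ℚ} (a : O p) (ha : (a : ℚ) = r)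
    (h : CDE.red p (res2 p a) = 0) : Cong p 1 r 0 := by
  subst ha
  obtain ⟨z, hz⟩ := CDE.red_eq_of p (res2 p a) 0 (by rw [h, map_zero])
  obtain ⟨n, hn⟩ : ∃ n : ℤ, (n : R p) = z := ZMod.intCast_surjective z
  obtain ⟨c, hc⟩ := res2_zero p (a - (p : O p) * (n : O p)) (by
    rw [map_sub, map_mul, map_natCast, map_intCast, hz, hn]; ring)
  have h1 := congrArg (Subtype.val) hc
  push_cast at h1
  have hp0 : (p : ℚ) ≠ 0 := by exact_mod_cast hp.out.ne_zero
  unfold Cong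
  have e : ((a : ℚ) - 0) / (p : ℚ) ^ 1 = (((n : O p) + (p : O p) * c : O p) : ℚ) := by
    push_cast
    field_simp
    linear_combination h1
  rw [e]
  exact ((n : O p) + (p : O p) * c : O p).2

/-- the sum `S(p)` in `ℤ_(p)` -/
noncomputable def SO : O p :=
  ∑ k ∈ range p, ((((4 * k).choose (2 * k) * (2 * k).choose k : ℕ)) : O p) * (invI p 63) ^ k

/-- the weighted sum in `ℤ_(p)` -/
noncomputable def KO : O p :=
  ∑ k ∈ range p, (k : O p) *
    (((((4 * k).choose (2 * k) * (2 * k).choose k : ℕ)) : O p) * (invI p 63) ^ k)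

/-- the sum `U(p)` in `ℤ_(p)` -/
noncomputable def UO : O p :=
  ∑ k ∈ range p, ((((2 * k).choose k * (4 * k).choose (2 * k) ^ 2 : ℕ)) : O p) * (invI p 63) ^ k

theorem SO_coe (h63 : ¬ (p : ℤ) ∣ 63) : ((SO p : O p) : ℚ) = S p := by
  unfold SO S a
  push_cast
  rw [invI_coe p 63 h63]
  refine sum_congr rfl fun k _ => ?_
  push_cast
  rw [inv_pow, div_eq_mul_inv]
  ring

theorem TO_coe (h63 : ¬ (p : ℤ) ∣ 63) : ((KO p + 8 * SO p : O p) : ℚ) = T p := by
  unfold KO SO T a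
  have c8 : ((8 : O p) : ℚ) = 8 := rfl
  push_cast
  rw [invI_coe p 63 h63, c8, mul_sum, ← sum_add_distrib]
  refine sum_congr rfl fun k _ => ?_
  push_cast
  rw [inv_pow, div_eq_mul_inv]
  ring

theorem UO_coe (h63 : ¬ (p : ℤ) ∣ 63) : ((UO p : O p) : ℚ) = U p := by
  unfold UO U b
  push_cast
  rw [invI_coe p 63 h63]
  refine sum_congr rfl fun k _ => ?_
  push_cast
  rw [inv_pow, div_eq_mul_inv]

open NumberTheorySymbols jacobiSym

theorem qc_jac (z : ℤ) : quadraticChar (ZMod p) (z : ZMod p) = J(z | p) := by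
  rw [← legendreSym.to_jacobiSym]
  rfl

theorem not_dvd_xy (h7 : p ≠ 7) (x y : ℤ) (hxy : (p : ℤ) = x ^ 2 + 7 * y ^ 2) :
    x ≠ 0 ∧ y ≠ 0 ∧ ¬ (p : ℤ) ∣ x ∧ ¬ (p : ℤ) ∣ y := by
  have hpp : Prime (p : ℤ) := Nat.prime_iff_prime_int.mp hp.out
  have hx0 : x ≠ 0 := by
    rintro rfl
    have h1 : (p : ℤ) = 7 * y ^ 2 := by rw [hxy]; ring
    have h2 : (7 : ℤ) ∣ p := ⟨y ^ 2, h1⟩
    have h3' : 7 ∣ p := by exact_mod_cast h2
    rcases (Nat.dvd_prime hp.out).mp h3' with h | h <;> omega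
  have hy0 : y ≠ 0 := by
    rintro rfl
    have h1 : (p : ℤ) = x ^ 2 := by rw [hxy]; ring
    rw [h1] at hpp
    exact not_prime_pow (by norm_num) hpp
  have hnd : ∀ z : ℤ, z ≠ 0 → z ^ 2 ≤ p → ¬ (p : ℤ) ∣ z := by
    intro z hz0 hz h
    have h1 := Int.le_of_dvd (by positivity) ((dvd_abs _ _).2 h)
    have h2 : (p : ℤ) ^ 2 ≤ z ^ 2 := by
      rw [← sq_abs z]
      exact pow_le_pow_left₀ (by positivity) h1 2
    have h3 : (2 : ℤ) ≤ p := by exact_mod_cast hp.out.two_le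
    nlinarith
  exact ⟨hx0, hy0, hnd x hx0 (by nlinarith [sq_nonneg y]),
    hnd y hy0 (by nlinarith [sq_nonneg x, sq_nonneg y])⟩

/-- the sign -/
theorem chi_eta (hp2 : p ≠ 2) (h7 : p ≠ 7) (x y : ℤ) (hxy : (p : ℤ) = x ^ 2 + 7 * y ^ 2)
    (w : ZMod p) (hw : (x : ZMod p) + y * (2 * w - 1) = 0) (η : ℤ) (hη : η = 1 ∨ η = -1)
    (hη4 : (4 : ℤ) ∣ (x - y) - η) :
    quadraticChar (ZMod p) (2 * w - 1) * η = J(x | 7) := by
  obtain ⟨hx0, hy0, hxd, hyd⟩ := not_dvd_xy p h7 x y hxy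
  have hodd : p % 2 = 1 := by
    rcases hp.out.eq_two_or_odd with h | h
    · exact absurd h hp2
    · exact h
  have h1 : quadraticChar (ZMod p) (2 * w - 1) * J(y | p) = J(-1 | p) * J(x | p) := by
    rw [← qc_jac, ← jacobiSym.mul_left, ← qc_jac, ← map_mul]
    congr 1
    push_cast
    linear_combination hw
  have hpo : Odd p := Nat.odd_iff.mpr hodd
  rw [at_neg_one hpo, ZMod.χ₄_nat_eq_if_mod_four, if_neg (show ¬ p % 2 = 0 by omega)] at h1
  rcases (show p % 4 = 1 ∨ p % 4 = 3 by omega) with h4 | h4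
  · obtain ⟨hx, hy, jx, jy⟩ := jac1 p x y hxy h4 hy0
    rw [if_pos h4, one_mul, jx, jy] at h1
    rcases hη with rfl | rfl
    · by_cases hx3 : x % 4 = 3
      · rw [if_pos hx3, if_neg (show ¬ y % 4 = 0 by omega)] at h1
        linarith
      · rw [if_neg hx3, if_pos (show y % 4 = 0 by omega)] at h1
        linarith
    · by_cases hx3 : x % 4 = 3
      · rw [if_pos hx3, if_pos (show y % 4 = 0 by omega)] at h1
        linarith
      · rw [if_neg hx3, if_neg (show ¬ y % 4 = 0 by omega)] at h1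
        linarith
  · obtain ⟨hx, hy, jx, jy⟩ := jac3 p x y hxy h4 hx0
    rw [if_neg (show ¬ p % 4 = 1 by omega), jx, jy] at h1
    rcases hη with rfl | rfl
    · by_cases hy3 : y % 4 = 3
      · rw [if_pos hy3, if_pos (show x % 4 = 0 by omega)] at h1
        linarith
      · rw [if_neg hy3, if_neg (show ¬ x % 4 = 0 by omega)] at h1
        linarith
    · by_cases hy3 : y % 4 = 3
      · rw [if_pos hy3, if_neg (show ¬ x % 4 = 0 by omega)] at h1
        linarith
      · rw [if_neg hy3, if_pos (show x % 4 = 0 by omega)] at h1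
        linarith

/-- the values of the two sums at the split primes -/
theorem core_a (h3 : 3 < p) (h7 : p ≠ 7) (x y : ℤ) (hxy : (p : ℤ) = x ^ 2 + 7 * y ^ 2)
    (hx7 : J(x | 7) = 1) :
    Cong p 2 (S p) ((J(p | 3) : ℚ) * (2 * (x : ℚ) - p / (2 * x))) ∧
    Cong p 2 (T p) (8 * (J(p | 3) : ℚ) * x) := by
  obtain ⟨hx0, hy0, hxd, hyd⟩ := not_dvd_xy p h7 x y hxy
  have hp2 := hp.out.two_le
  have hodd : p % 2 = 1 := by
    rcases hp.out.eq_two_or_odd with h | h
    · omega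
    · exact h
  obtain ⟨m, hpm⟩ : ∃ m, p = 2 * m + 1 := ⟨p / 2, by omega⟩
  have hpp := CDE.p_sq p
  have hpp' := Nat.prime_iff_prime_int.1 hp.out
  have h2d := CDE.Qx.nd2 p h3
  have h4d := CDE.Qx.nd4 p h3
  have h2x : ¬ (p : ℤ) ∣ 2 * x := fun h => (hpp'.dvd_or_dvd h).elim h2d hxd
  have h63 : ¬ (p : ℤ) ∣ 63 := by
    intro h
    have h' : p ∣ 3 * 3 * 7 := by
      have : p ∣ 63 := by exact_mod_cast h
      exact this
    rcases (hp.out.dvd_mul).mp h' with h1 | h1
    · rcases (hp.out.dvd_mul).mp h1 with h2 | h2 <;>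
      · have := Nat.le_of_dvd (by norm_num) h2; omega
    · exact h7 ((Nat.prime_dvd_prime_iff_eq hp.out (by norm_num)).mp h1)
  have hX := res2_invI p (2 * x) h2x
  have hJ := res2_invI p 4 h4d
  have hN := res2_invI p 63 h63
  push_cast at hX hJ hN
  set X := res2 p (invI p (2 * x)) with hXd
  set N := res2 p (invI p 63) with hNd
  obtain ⟨a, η, v, ha, hη, hη4, hv, hF⟩ := Fval p m hpm h3 h7 x y hxy _ hX
  set A : R p := (a : R p) with hAd
  set J := res2 p (invI p 4) with hJd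
  have hA4 := A4 p A ha
  have e16 : A ^ 4 * (1 - A ^ 4) = 16 := by
    rw [← A4' p _ ha, ← mul_pow, AAb p _ ha]; norm_num
  have hL1 : A ^ 4 * ((1 - A ^ 4) * J ^ 2) = 1 := by
    linear_combination J ^ 2 * e16 + (4 * J + 1) * hJ
  have hu4 : IsUnit (A ^ 4) := IsUnit.of_mul_eq_one _ hL1
  have huA : IsUnit A := (isUnit_pow_iff (by norm_num)).mp hu4
  have hred : CDE.red p ((A ^ 4) ^ m) = 1 := by
    have h0 : CDE.red p A ≠ 0 := (huA.map (CDE.red p)).ne_zero
    rw [← pow_mul, map_pow, show 4 * m = (p - 1) * 2 by omega, pow_mul,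
      ZMod.pow_card_sub_one_eq_one h0, one_pow]
  obtain ⟨v2, hv2⟩ := CDE.red_eq_of p ((A ^ 4) ^ m) 1 (by rw [hred, map_one])
  have hFy := Fl_inv p hpm h3 h7 a ha _ hL1
  -- the inverse of the value
  have hη2 : (η : R p) * η = 1 := by
    rcases hη with h | h <;> rw [h] <;> norm_num
  have hm1 : ((-1 : R p)) ^ m * (-1) ^ m = 1 := by rw [← mul_pow]; norm_num
  have hFi : Fl m (A ^ 4) * ((-1) ^ m * (η : R p) * (X + p * X ^ 3)) = 1 := by
    rw [hF]
    have e1 : (2 * (x : R p) - p * X) * (X + p * X ^ 3) = 1 := by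
      linear_combination (1 + p * X ^ 2) * hX - X ^ 4 * hpp
    linear_combination (η * η * ((2 * (x : R p) - p * X) * (X + p * X ^ 3))) * hm1 +
      ((2 * (x : R p) - p * X) * (X + p * X ^ 3)) * hη2 + e1
  -- the character
  have hredq : CDE.red p (1 - 2 * A ^ 4) = 3 * (2 * CDE.red p A - 1) := by
    have : 1 - 2 * A ^ 4 = 3 * (2 * A - 1) := by rw [hA4]; ring
    rw [this, map_mul, map_sub, map_mul, map_ofNat, map_ofNat, map_one]
  have hq2 : (1 - 2 * A ^ 4) ^ 2 = -63 := by linear_combination (-4 : R p) * e16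
  have hq0 : CDE.red p (1 - 2 * A ^ 4) ≠ 0 := by
    intro h
    have h1 := congrArg (CDE.red p) hq2
    rw [map_pow, h, map_neg, map_ofNat] at h1
    apply h63
    have h2 : ((63 : ℕ) : ZMod p) = 0 := by
      push_cast
      linear_combination h1
    rw [ZMod.natCast_eq_zero_iff] at h2
    exact_mod_cast h2
  obtain ⟨s, hsd⟩ : ∃ s : ℤ, s = quadraticChar (ZMod p) (CDE.red p (1 - 2 * A ^ 4)) := ⟨_, rfl⟩
  have hs1 : s = 1 ∨ s = -1 := by rw [hsd]; exact quadraticChar_dichotomy hq0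
  have hs : (s : R p) ^ 2 = 1 := by
    rcases hs1 with h | h <;> rw [h] <;> norm_num
  obtain ⟨w, hw⟩ := CDE.red_eq_of p ((1 - 2 * A ^ 4) ^ m) (s : R p) (by
    rw [map_pow, map_intCast, hsd]
    exact (MW.chi_pow hpm _).symm)
  have hL1' : CDE.red p (A ^ 4) ≠ 1 := by
    intro h
    have h1 := congrArg (CDE.red p) e16
    rw [map_mul, map_sub, h, map_one, sub_self, mul_zero, map_ofNat] at h1
    have h2 : (2 : ZMod p) ^ 4 = 0 := by rw [h1]; norm_num
    have h3' : (2 : ZMod p) ≠ 0 := by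
      have := CDE.cast_ne p 2 (by norm_num) (by omega)
      exact_mod_cast this
    exact pow_ne_zero 4 h3' h2
  obtain ⟨vS, vK⟩ := sums63 p hpm h3 h7 (A ^ 4) _ v2 _ N (s : R p) w e16 hL1 hv2 hFy hFi hN hs hw hL1'
  -- the sign
  have hsign : s * ((-1) ^ m * η) = J(p | 3) := by
    have h1 := chi_eta p (by omega) h7 x y hxy (CDE.red p A) (by
      have := congrArg (CDE.red p) hv
      rw [map_add, map_mul, map_sub, map_mul, map_one, map_ofNat, map_intCast, map_intCast,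
        map_mul, map_natCast, ZMod.natCast_self, zero_mul] at this
      exact this) η hη hη4
    rw [hx7] at h1
    have h2 := jac_odd 3 p (by norm_num) hodd
    have h3' : quadraticChar (ZMod p) (3 : ZMod p) = J(3 | p) := by
      rw [← qc_jac]; norm_num
    have h4 : (3 : ℤ).natAbs = 3 := rfl
    rw [h4] at h2
    rw [hsd, hredq, map_mul, h3', h2]
    rcases (show p % 4 = 1 ∨ p % 4 = 3 by omega) with h5 | h5
    · rw [if_neg (by omega)]
      have h6 : (-1 : ℤ) ^ m = 1 := (Nat.even_iff.mpr (by omega) : Even m).neg_one_pow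
      rw [h6]
      linear_combination (J(p | 3)) * h1
    · rw [if_pos ⟨by norm_num, h5⟩]
      have h6 : (-1 : ℤ) ^ m = -1 := (Nat.odd_iff.mpr (by omega) : Odd m).neg_one_pow
      rw [h6]
      linear_combination (J(p | 3)) * h1
  have hsR : (s : R p) * ((-1) ^ m * (η : R p)) = ((J(p | 3) : ℤ) : R p) := by
    have := congrArg (Int.cast : ℤ → R p) hsign
    push_cast at this
    exact this
  constructor
  · have b1 : ((((J(p | 3) : ℤ) : O p) * (2 * (x : O p) - (p : O p) * invI p (2 * x)) : O p) : ℚ) =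
        (J(p | 3) : ℚ) * (2 * (x : ℚ) - p / (2 * x)) := by
      have c2 : ((2 : O p) : ℚ) = 2 := rfl
      push_cast
      rw [c2, invI_coe p _ h2x]
      push_cast
      rw [div_eq_mul_inv]
    refine cong_two p _ _ (SO_coe p h63) b1 ?_
    unfold SO
    simp only [map_sum, map_mul, map_sub, map_pow, map_natCast, map_intCast, map_ofNat]
    rw [← hNd, vS, hF]
    linear_combination (2 * (x : R p) - p * X) * hsR
  · have b1 : ((8 * ((J(p | 3) : ℤ) : O p) * (x : O p) : O p) : ℚ) =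
        8 * (J(p | 3) : ℚ) * x := by
      have c8 : ((8 : O p) : ℚ) = 8 := rfl
      push_cast
      rw [c8]
    refine cong_two p _ _ (TO_coe p h63) b1 ?_
    unfold KO SO
    simp only [map_sum, map_add, map_mul, map_pow, map_natCast, map_intCast, map_ofNat]
    rw [← hNd, vS, vK, hF]
    linear_combination (8 * (x : R p)) * hsR + (4 * (s : R p) * ((-1) ^ m * (η : R p)) * X ^ 3) * hpp

/-- the two sums at the inert primes -/
theorem core_b (h3 : 3 < p) (hp7 : J(p | 7) = -1) : Cong p 1 (S p) 0 ∧ Cong p 1 (U p) 0 := by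
  have h7 : p ≠ 7 := by
    rintro rfl
    have h1 : J((7 : ℕ) | 7) = 0 := by
      rw [jacobiSym.eq_zero_iff_not_coprime]
      decide
    rw [h1] at hp7
    norm_num at hp7
  have hodd : p % 2 = 1 := by
    rcases hp.out.eq_two_or_odd with h | h
    · omega
    · exact h
  obtain ⟨m, hpm⟩ : ∃ m, p = 2 * m + 1 := ⟨p / 2, by omega⟩
  have h4d := CDE.Qx.nd4 p h3
  have h63 : ¬ (p : ℤ) ∣ 63 := by
    intro h
    have h' : p ∣ 3 * 3 * 7 := by
      have : p ∣ 63 := by exact_mod_cast h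
      exact this
    rcases (hp.out.dvd_mul).mp h' with h1 | h1
    · rcases (hp.out.dvd_mul).mp h1 with h2 | h2 <;>
      · have := Nat.le_of_dvd (by norm_num) h2; omega
    · exact h7 ((Nat.prime_dvd_prime_iff_eq hp.out (by norm_num)).mp h1)
  have h2p : (2 : ZMod p) ≠ 0 := by
    have := CDE.cast_ne p 2 (by norm_num) (by omega)
    exact_mod_cast this
  have h7p : (7 : ZMod p) ≠ 0 := by
    intro h
    have : ((7 : ℕ) : ZMod p) = 0 := by exact_mod_cast h
    rw [ZMod.natCast_eq_zero_iff] at this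
    exact h7 ((Nat.prime_dvd_prime_iff_eq hp.out (by norm_num)).mp this)
  have hno : ∀ w : ZMod p, w ^ 2 - w + 2 ≠ 0 := by
    intro w hw
    have h1 : quadraticChar (ZMod p) ((2 * w - 1) ^ 2) = 1 := by
      rw [map_pow]
      apply quadraticChar_sq_one
      intro h0
      apply h7p
      linear_combination (-(2 * w - 1)) * h0 + 4 * hw
    have h2 : ((2 * w - 1) ^ 2 : ZMod p) = ((-7 : ℤ) : ZMod p) := by
      push_cast
      linear_combination 4 * hw
    rw [h2, qc_jac] at h1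
    have h4 := jac_odd (-7) p (by norm_num) hodd
    have h5 : (-7 : ℤ).natAbs = 7 := rfl
    rw [h5, if_neg (by norm_num), one_mul, h1, hp7] at h4
    norm_num at h4
  obtain ⟨w, hw, hne⟩ := exists_root p (by omega) hno
  have h2K : (2 : AlgebraicClosure (ZMod p)) ≠ 0 := by
    intro h
    apply h2p
    apply (algebraMap (ZMod p) (AlgebraicClosure (ZMod p))).injective
    rw [map_ofNat, map_zero]
    exact h
  have hJ := congrArg (CDE.red p) (res2_invI p 4 h4d)
  have hN := congrArg (CDE.red p) (res2_invI p 63 h63)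
  rw [map_mul, map_intCast, map_one] at hJ hN
  push_cast at hJ hN
  constructor
  · refine cong_one p (SO p) (SO_coe p h63) ?_
    unfold SO
    simp only [map_sum, map_mul, map_pow, map_natCast]
    exact S_zero p m hpm h2K h7 w hw hne _ _ hJ hN
  · refine cong_one p (UO p) (UO_coe p h63) ?_
    unfold UO
    simp only [map_sum, map_mul, map_pow, map_natCast]
    exact U_zero p m hpm h2K h7 w hw hne _ _ hJ hN

end

/-- **MP_d8ab80_nt.** -/
theorem result (p : ℕ) (hp : p.Prime) (h3 : 3 < p) :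
    (jacobiSym p 7 = 1 → ∀ x y : ℤ, (p : ℤ) = x ^ 2 + 7 * y ^ 2 → jacobiSym x 7 = 1 →
      Cong p 2 (S p) ((jacobiSym p 3 : ℚ) * (2 * (x : ℚ) - p / (2 * x))) ∧
      Cong p 2 (T p) (8 * (jacobiSym p 3 : ℚ) * x)) ∧
    (jacobiSym p 7 = -1 → Cong p 1 (S p) 0 ∧ Cong p 1 (U p) 0) := by
  have := Fact.mk hp
  refine ⟨fun h1 x y hxy hx => ?_, fun h1 => core_b p h3 h1⟩
  have h7 : p ≠ 7 := by
    rintro rfl
    have h2 : jacobiSym ((7 : ℕ) : ℤ) 7 = 0 := by
      rw [jacobiSym.eq_zero_iff_not_coprime]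
      decide
    rw [h2] at h1
    norm_num at h1
  exact core_a p h3 h7 x y hxy hx

end Pool.Agent.Results.MP_d8ab80_nt.Full
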